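import Pool.Agent.Helper31.RG.Goals

/-!
# MP_c578c8_lc, packet WF: grammars in the well-founded semantics
-/

namespace Pool.Agent.Helper33.RG.PkWF

open Pool.Agent.Helper31.RG

section Order

variable {T : Type} (G : Grammar T)

/-- Pointwise inclusion. -/
def Le (I J : G.N → Set (List (List T))) : Prop := ∀ A, ∀ y ∈ I A, y ∈ J A

theorem rhs_mono {I I' S S' : G.N → Set (List (List T))} (hI : Le G I' I) (hS : Le G S S') :
    Le G (G.rhs I S) (G.rhs I' S') := by
  rintro A y ⟨c, hc, ν, h1, h2, h3⟩
  exact ⟨c, hc, ν, h1, fun p hp => hS _ _ (h2 p hp), fun p hp h => h3 p hp (hI _ _ h)⟩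

theorem least_le {I S : G.N → Set (List (List T))} (h : Le G (G.rhs I S) S) :
    Le G (G.least I) S := fun _ _ hy => hy S h

theorem least_closed (I : G.N → Set (List (List T))) :
    Le G (G.rhs I (G.least I)) (G.least I) := by
  intro A y hy S hS
  exact hS A y (rhs_mono G (fun _ _ h => h) (least_le G hS) A y hy)

theorem least_anti {I I' : G.N → Set (List (List T))} (h : Le G I I') :
    Le G (G.least I') (G.least I) := by
  refine least_le G fun A y hy => ?_
  exact least_closed G I A y (rhs_mono G h (fun _ _ h => h) A y hy)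

theorem wf_closed : Le G (G.least (G.least G.wellFounded)) G.wellFounded := by
  intro A y hy I hI
  refine hI A y ?_
  refine least_anti G (least_anti G ?_) A y hy
  exact fun B z hz => hz I hI

theorem wf_le {I : G.N → Set (List (List T))} (h : Le G (G.least (G.least I)) I) :
    Le G G.wellFounded I := fun _ _ hy => hy I h

theorem wf_le' : Le G G.wellFounded (G.least (G.least G.wellFounded)) := by
  refine wf_le G ?_
  exact least_anti G (least_anti G (wf_closed G))

/-- The set `W` is closed under `rhs V`. -/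
theorem rhsVW : Le G (G.rhs (G.least G.wellFounded) G.wellFounded) G.wellFounded := by
  intro A y hy
  refine wf_closed G A y (least_closed G _ A y ?_)
  exact rhs_mono G (fun _ _ h => h) (wf_le' G) A y hy

end Order

section Mu

variable {T : Type} (G : Grammar T) (k : ℕ)

/-- The value of a tuple. -/
def mu (x : Fin k → List T) : Set (Fin (k + 1) × G.N × Bool) :=
  {p | (List.ofFn x).take p.1.val ∈
    (if p.2.2 = true then G.least G.wellFounded p.2.1 else G.wellFounded p.2.1)}

theorem ofFn_pad (y : List (List T)) (h : y.length ≤ k) :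
    (List.ofFn (pad k y)).take y.length = y := by
  apply List.ext_getElem
  · rw [List.length_take, List.length_ofFn]
    omega
  · intro i h1 h2
    rw [List.getElem_take, List.getElem_ofFn]
    simp [pad, h2]

theorem mu_W {y y' : List (List T)} (h : y.length ≤ k) (hl : y'.length = y.length)
    (hm : mu G k (pad k y) = mu G k (pad k y')) (A : G.N) :
    y ∈ G.wellFounded A ↔ y' ∈ G.wellFounded A := by
  have h1 := Set.ext_iff.1 hm (⟨y.length, by omega⟩, A, false)
  have e1 := ofFn_pad k y h
  have e2 := ofFn_pad k y' (by omega)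
  rw [hl] at e2
  simp only [mu, Set.mem_ofPred_eq, e1, e2] at h1
  simpa using h1

theorem mu_V {y y' : List (List T)} (h : y.length ≤ k) (hl : y'.length = y.length)
    (hm : mu G k (pad k y) = mu G k (pad k y')) (A : G.N) :
    y ∈ G.least G.wellFounded A ↔ y' ∈ G.least G.wellFounded A := by
  have h1 := Set.ext_iff.1 hm (⟨y.length, by omega⟩, A, true)
  have e1 := ofFn_pad k y h
  have e2 := ofFn_pad k y' (by omega)
  rw [hl] at e2
  simp only [mu, Set.mem_ofPred_eq, e1, e2] at h1
  simpa using h1

end Mu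

theorem half (hM : G_MATCH) {T : Type} (G : Grammar T) {k r : ℕ} (hL : G.Linear k)
    (hr : ∀ A, ∀ c ∈ G.rules A, ∀ u ∈ c.lhs, u.length ≤ r) (x x' : Fin k → List T)
    (h1 : dat r (mu G k) x ⊆ dat r (mu G k) x') (h2 : dat r (mu G k) x' ⊆ dat r (mu G k) x) :
    (∀ A ρ, Arr ρ → app x ρ ∈ G.wellFounded A → app x' ρ ∈ G.wellFounded A) ∧
    ∀ A ρ, Arr ρ → app x' ρ ∈ G.least G.wellFounded A →
      app x ρ ∈ G.least G.wellFounded A := by
  set W := G.wellFounded with hW
  set I : G.N → Set (List (List T)) := fun A =>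
    {z | z ∈ W A ∧ ∀ ρ, Arr ρ → z = app x ρ → app x' ρ ∈ W A} with hI
  have hIW : Le G I W := fun A z hz => hz.1
  have hVJ : Le G (G.least W) (G.least I) := least_anti G hIW
  have hlen : ∀ A, ∀ c ∈ G.rules A, ∀ p ∈ c.pos ++ c.neg, ∀ ν : ℕ → List T,
      (p.2.map ν).length ≤ k := by
    intro A c hc p hp ν
    rw [List.length_map]
    exact ((hL A c hc).2.2 p hp).1
  -- (i)
  have hi : ∀ A, ∀ z ∈ G.least W A, ∀ ρ, Arr ρ → z = app x' ρ → app x ρ ∈ G.least I A := by
    have hU : Le G (G.least W) (fun A =>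
        {z | z ∈ G.least W A ∧ ∀ ρ, Arr ρ → z = app x' ρ → app x ρ ∈ G.least I A}) := by
      refine least_le G ?_
      intro A z hz
      have hzV : z ∈ G.least W A := least_closed G W A z
        (rhs_mono G (fun _ _ h => h) (fun B y hy => hy.1) A z hz)
      refine ⟨hzV, fun ρ hρ hzρ => ?_⟩
      obtain ⟨c, hc, ν, e1, e2, e3⟩ := hz
      obtain ⟨ν', f1, f2⟩ := hM T G.N (Set (Fin (k + 1) × G.N × Bool)) k r c (mu G k) x' x
        (hL A c hc) (hr A c hc) h2 ρ hρ ν (e1.trans hzρ)
      refine least_closed G I A _ ⟨c, hc, ν', f1, fun p hp => ?_, fun p hp hin => ?_⟩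
      · rcases f2 p (List.mem_append_left _ hp) with ⟨ρ', g1, g2, g3⟩ | ⟨-, -, g3⟩
        · rw [g3]
          exact (e2 p hp).2 ρ' g1 g2
        · refine hVJ _ _ ?_
          have := (e2 p hp).1
          exact (mu_V G k (hlen A c hc p (List.mem_append_left _ hp) ν) (by simp) g3 _).1 this
      · rcases f2 p (List.mem_append_right _ hp) with ⟨ρ', g1, g2, g3⟩ | ⟨-, -, g3⟩
        · apply e3 p hp
          rw [g2]
          exact hin.2 ρ' g1 g3
        · apply e3 p hp
          exact (mu_W G k (hlen A c hc p (List.mem_append_right _ hp) ν) (by simp) g3 _).2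
            hin.1
    intro A z hz ρ hρ hzρ
    exact (hU A z hz).2 ρ hρ hzρ
  -- (ii)
  have hii : Le G (G.least (G.least I)) I := by
    refine least_le G ?_
    intro A z hz
    have hzW : z ∈ W A := rhsVW G A z (rhs_mono G hVJ hIW A z hz)
    refine ⟨hzW, fun ρ hρ hzρ => ?_⟩
    obtain ⟨c, hc, ν, e1, e2, e3⟩ := hz
    obtain ⟨ν', f1, f2⟩ := hM T G.N (Set (Fin (k + 1) × G.N × Bool)) k r c (mu G k) x x'
      (hL A c hc) (hr A c hc) h1 ρ hρ ν (e1.trans hzρ)
    refine rhsVW G A _ ⟨c, hc, ν', f1, fun p hp => ?_, fun p hp hin => ?_⟩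
    · rcases f2 p (List.mem_append_left _ hp) with ⟨ρ', g1, g2, g3⟩ | ⟨-, -, g3⟩
      · rw [g3]
        exact (e2 p hp).2 ρ' g1 g2
      · have := (e2 p hp).1
        exact (mu_W G k (hlen A c hc p (List.mem_append_left _ hp) ν) (by simp) g3 _).1 this
    · rcases f2 p (List.mem_append_right _ hp) with ⟨ρ', g1, g2, g3⟩ | ⟨-, -, g3⟩
      · apply e3 p hp
        rw [g2]
        exact hi _ _ hin ρ' g1 g3
      · apply e3 p hp
        refine hVJ _ _ ?_
        exact (mu_V G k (hlen A c hc p (List.mem_append_right _ hp) ν) (by simp) g3 _).2 hin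
  have hWI : Le G W I := wf_le G hii
  have hJV : Le G (G.least I) (G.least W) := least_anti G hWI
  constructor
  · intro A ρ hρ h
    exact (hWI A _ h).2 ρ hρ rfl
  · intro A ρ hρ h
    exact hJV _ _ (hi A _ h ρ hρ rfl)

theorem take_app {T : Type} {k : ℕ} (x : Fin k → List T) (a : ℕ) :
    (List.ofFn x).take a = app x (((List.finRange k).take a).map some) := by
  unfold app
  rw [List.map_map, List.ofFn_eq_map, ← List.map_take]
  rfl

theorem arr_take {k : ℕ} (a : ℕ) : Arr (((List.finRange k).take a).map some) := by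
  constructor
  · rw [List.length_map, List.length_take, List.length_finRange]
    omega
  · rw [List.filterMap_map]
    have : (id ∘ some : Fin k → Option (Fin k)) = some := rfl
    rw [this, List.filterMap_some]
    exact (List.nodup_finRange k).sublist (List.take_sublist _ _)

theorem exists_bound {T : Type} (G : Grammar T) :
    ∃ r, ∀ A, ∀ c ∈ G.rules A, ∀ u ∈ c.lhs, u.length ≤ r := by
  classical
  have := G.finN
  have h1 : ∀ A, ∃ r, ∀ c ∈ G.rules A, ∀ u ∈ c.lhs, u.length ≤ r := by
    intro A
    have h2 : ∀ l : List (List (T ⊕ ℕ)), ∃ r, ∀ u ∈ l, u.length ≤ r := by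
      intro l
      induction l with
      | nil => exact ⟨0, by simp⟩
      | cons a l ih =>
        obtain ⟨r, hr⟩ := ih
        refine ⟨max a.length r, fun u hu => ?_⟩
        rcases List.mem_cons.1 hu with h | h
        · rw [h]; exact le_max_left _ _
        · exact le_trans (hr u h) (le_max_right _ _)
    induction G.rules A with
    | nil => exact ⟨0, by simp⟩
    | cons c l ih =>
      obtain ⟨r, hr⟩ := ih
      obtain ⟨r', hr'⟩ := h2 c.lhs
      refine ⟨max r r', fun c' hc' u hu => ?_⟩
      rcases List.mem_cons.1 hc' with h | h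
      · rw [h] at hu
        exact le_trans (hr' u hu) (le_max_right _ _)
      · exact le_trans (hr c' h u hu) (le_max_left _ _)
  choose r hr using h1
  obtain ⟨R, hR⟩ := (Set.finite_range r).bddAbove
  refine ⟨R, fun A c hc u hu => ?_⟩
  exact le_trans (hr A c hc u hu) (hR ⟨A, rfl⟩)

theorem thm (hM : G_MATCH) : G_WF := by
  classical
  intro T G k hk hL
  have := G.finN
  obtain ⟨r, hr⟩ := exists_bound G
  refine ⟨r, Set (Fin (k + 1) × G.N × Bool), inferInstance, mu G k,
    fun s => if h : ∃ x, dat r (mu G k) x = s then mu G k h.choose else ∅,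
    {s | ((⟨1, by omega⟩ : Fin (k + 1)), G.start, false) ∈ s}, ?_, ?_⟩
  · intro x
    have hex : ∃ y, dat r (mu G k) y = dat r (mu G k) x := ⟨x, rfl⟩
    beta_reduce
    rw [dif_pos hex]
    have h := hex.choose_spec
    generalize hex.choose = y at h
    obtain ⟨a1, a2⟩ := half hM G hL hr x y h.symm.subset h.subset
    obtain ⟨b1, b2⟩ := half hM G hL hr y x h.subset h.symm.subset
    ext ⟨a, A, β⟩
    unfold mu
    simp only [Set.mem_ofPred_eq]
    rw [take_app x, take_app y]
    have harr := arr_take (k := k) a.val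
    cases β with
    | false =>
      simp only [Bool.false_eq_true, if_false]
      exact ⟨a1 A _ harr, b1 A _ harr⟩
    | true =>
      simp only [if_true]
      exact ⟨b2 A _ harr, a2 A _ harr⟩
  · intro w
    obtain ⟨k, rfl⟩ : ∃ m, k = m + 1 := ⟨k - 1, by omega⟩
    have e : (List.ofFn (fun i : Fin (k + 1) => if i.val = 0 then w else [])).take 1 = [w] := by
      rw [List.ofFn_succ]
      simp
    show [w] ∈ G.wellFounded G.start ↔ _
    simp only [mu, Set.mem_ofPred_eq, e, Bool.false_eq_true, if_false]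

end Pool.Agent.Helper33.RG.PkWF
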